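import Pool.Agent.P.MP_094db5_co.XA

set_option autoImplicit false

namespace Pool.Agent.Results.MP_094db5_co.BookAll

open Pool.Agent.P.MP_094db5_co

theorem result (r t : ℕ) (hr : 3 ≤ r) : ∃ m₀ : ℕ, ∀ m : ℕ, m₀ ≤ m →
    ∀ (V : Type) [Fintype V] (G : SimpleGraph V),
    (InN (join (⊤ : SimpleGraph (Fin r)) (⊥ : SimpleGraph (Fin (t + 1)))) r m G ∧
      ∀ (W : Type) [Fintype W] (H : SimpleGraph W),
        InN (join (⊤ : SimpleGraph (Fin r)) (⊥ : SimpleGraph (Fin (t + 1)))) r m H →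
          lam H ≤ lam G) ↔
    (G.edgeSet.ncard = m ∧ ∃ c, FamB r t G c) ∧ ∀ (W : Type) [Fintype W] (H : SimpleGraph W),
      (H.edgeSet.ncard = m ∧ ∃ c, FamB r t H c) → lam H ≤ lam G :=
  book_all hr t

end Pool.Agent.Results.MP_094db5_co.BookAll
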