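import Pool.Agent.P.MP_094db5_co.DH3

set_option autoImplicit false

namespace Pool.Agent.Results.MP_094db5_co.BookFull

open Pool.Agent.P.MP_094db5_co

theorem result (r t : ℕ) (hr : 11 ≤ r) : ∃ N₀ : ℕ, ∀ N k m : ℕ, N₀ ≤ N → m = tn r N + k →
    (r < k + if t = 0 then 1 else 0) → (m + if t = 0 then 1 else 0) ≤ tn r (N + 1) + r →
    ∀ (V : Type) [Fintype V] (G : SimpleGraph V),
    (InN (join (⊤ : SimpleGraph (Fin r)) (⊥ : SimpleGraph (Fin (t + 1)))) r m G ∧
      ∀ (W : Type) [Fintype W] (H : SimpleGraph W),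
        InN (join (⊤ : SimpleGraph (Fin r)) (⊥ : SimpleGraph (Fin (t + 1)))) r m H →
          lam H ≤ lam G) ↔
    (Win r t N k N₀ → CandB r t N m G ∧
      ∀ (W : Type) [Fintype W] (H : SimpleGraph W), CandB r t N m H → lam H ≤ lam G) ∧
    (¬ Win r t N k N₀ → G.edgeSet.ncard = m ∧ ∃ c, if 0 < psi r N k then DenseB r t (N + 1) G c
      else Turan r N c ∧ if 0 < phi r N k then PairB r G c else StarB r t G c) :=
  Dn.book_full hr t

end Pool.Agent.Results.MP_094db5_co.BookFull
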