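import Pool.Agent.P.MP_094db5_co.XA

set_option autoImplicit false

namespace Pool.Agent.Results.MP_094db5_co.WheelAll

open Pool.Agent.P.MP_094db5_co

theorem result (k : ℕ) (hk : 2 ≤ k) : ∃ m₀ : ℕ, ∀ m : ℕ, m₀ ≤ m →
    ∀ (V : Type) [Fintype V] (G : SimpleGraph V),
    (InN (join (⊤ : SimpleGraph (Fin 1)) (SimpleGraph.cycleGraph (2 * k + 1))) 3 m G ∧
      ∀ (W : Type) [Fintype W] (H : SimpleGraph W),
        InN (join (⊤ : SimpleGraph (Fin 1)) (SimpleGraph.cycleGraph (2 * k + 1))) 3 m H →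
          lam H ≤ lam G) ↔
    (G.edgeSet.ncard = m ∧ ∃ c, FamW G c) ∧ ∀ (W : Type) [Fintype W] (H : SimpleGraph W),
      (H.edgeSet.ncard = m ∧ ∃ c, FamW H c) → lam H ≤ lam G :=
  wheel_all hk

end Pool.Agent.Results.MP_094db5_co.WheelAll
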