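import Pool.Agent.P.MP_094db5_co.XT

set_option autoImplicit false

namespace Pool.Agent.Results.MP_094db5_co.WheelTuran

open Pool.Agent.P.MP_094db5_co

theorem result (q : ℕ) (hq : 2 ≤ q) : ∃ N₀ : ℕ, ∀ N k m : ℕ, N₀ ≤ N →
    m = (SimpleGraph.turanGraph N 3).edgeSet.ncard + k → 6 ≤ k →
    (k : ℝ) ≤ 2 / 9 * N - 14400 * √N →
    ∀ (V : Type) [Fintype V] (G : SimpleGraph V),
    (InN (join (⊤ : SimpleGraph (Fin 1)) (SimpleGraph.cycleGraph (2 * q + 1))) 3 m G ∧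
      ∀ (W : Type) [Fintype W] (H : SimpleGraph W),
        InN (join (⊤ : SimpleGraph (Fin 1)) (SimpleGraph.cycleGraph (2 * q + 1))) 3 m H →
          lam H ≤ lam G) ↔
    G.edgeSet.ncard = m ∧ ∃ c, Turan 3 N c ∧ StarW G c :=
  wheel_turan hq

end Pool.Agent.Results.MP_094db5_co.WheelTuran
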